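import Pool.Agent.Results.MP_4ef84e_co.RowSparseLower

/-!
# MP_4ef84e_co: `f_d(n) ≥ n^(3 - 2/(d+1))` up to a power of `log n`

The starting construction is run with a number of levels growing like `log n / log log n`.
-/

set_option autoImplicit false

namespace Pool.Agent.Results.MP_4ef84e_co.RowSparsePolylog

open Finset Filter Pool.Agent.Helper689.RS0 Pool.Agent.Helper689.RS4
open Pool.Agent.Results.MP_4ef84e_co.RowSparseLower

/-- the explicit inequality -/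
theorem key {d n u : ℕ} (hd : 2 ≤ d) (hn : 3 ≤ n)
    (hu : (2 : ℝ) ^ (d + 6) * (d + 5) * (3 * Real.log n + 2) ≤ u) (hun : u ^ (4 * (d + 1)) ≤ n) :
    (n : ℝ) ^ (3 - 2 / ((d : ℝ) + 1)) < (u : ℝ) ^ (3 * d + 8) * (f d n : ℝ) := by
  have hlogn : 0 ≤ Real.log n := Real.log_nonneg (by exact_mod_cast (by omega : 1 ≤ n))
  have hdR : (2 : ℝ) ≤ d := by exact_mod_cast hd
  have h64 : (64 : ℝ) ≤ 2 ^ (d + 6) := by
    calc (64 : ℝ) = 2 ^ 6 := by norm_num
      _ ≤ 2 ^ (d + 6) := pow_le_pow_right₀ (by norm_num) (by omega)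
  have huR : (64 : ℝ) * (d + 5) * 2 ≤ u := by
    refine le_trans ?_ hu
    gcongr
    linarith
  have hu4 : 4 ≤ u := by
    have : (4 : ℝ) ≤ u := by nlinarith
    exact_mod_cast this
  have hdu : d ≤ u := by
    have : (d : ℝ) ≤ u := by nlinarith
    exact_mod_cast this
  have hu0 : (0 : ℝ) < u := by exact_mod_cast (by omega : 0 < u)
  have hu1 : (1 : ℝ) < u := by exact_mod_cast (by omega : 1 < u)
  set b : ℕ := u ^ (d + 1) with hb
  have hb1 : 1 < b := Nat.one_lt_pow (by omega) (by omega)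
  set k : ℕ := Nat.log b n with hk
  have hk4 : 4 ≤ k := by
    apply Nat.le_log_of_pow_le hb1
    rw [hb, ← pow_mul, mul_comm]
    exact hun
  have hle : u ^ (k * (d + 1)) ≤ n := by
    rw [mul_comm, pow_mul]
    exact Nat.pow_log_le_self b (by omega)
  have hlt : n < u ^ ((k + 1) * (d + 1)) := by
    rw [mul_comm, pow_mul]
    exact Nat.lt_pow_succ_log_self hb1 n
  -- the condition of the construction
  have hlogu : 0 ≤ Real.log u := Real.log_nonneg hu1.le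
  have hklog : ((k * (3 * d + 1) : ℕ) : ℝ) * Real.log u ≤ 3 * Real.log n := by
    have h1 : ((k * (d + 1) : ℕ) : ℝ) * Real.log u ≤ Real.log n := by
      rw [← Real.log_pow]
      apply Real.log_le_log (by positivity)
      exact_mod_cast hle
    have h2 : ((k * (3 * d + 1) : ℕ) : ℝ) ≤ 3 * ((k * (d + 1) : ℕ) : ℝ) := by
      push_cast
      nlinarith [show (0 : ℝ) ≤ k from Nat.cast_nonneg k]
    calc ((k * (3 * d + 1) : ℕ) : ℝ) * Real.log u
        ≤ 3 * ((k * (d + 1) : ℕ) : ℝ) * Real.log u := by gcongr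
      _ = 3 * (((k * (d + 1) : ℕ) : ℝ) * Real.log u) := by ring
      _ ≤ 3 * Real.log n := by gcongr
  have hstar : (2 : ℝ) ^ (d + 6) * (d + 5) *
      (((k * (3 * d + 1) : ℕ) : ℝ) * Real.log u + 2) ≤ u := by
    refine le_trans ?_ hu
    gcongr
  obtain ⟨M, hM, hMR⟩ := explicit hd hk4 hu4 hdu hstar
  obtain ⟨M', hM', hMR'⟩ := pad hle hM hMR
  have hf : u ^ (k * (3 * d + 1) - 7) < f d n := lt_f (by omega) hM' hMR'
  have hfR : ((u : ℝ) ^ (k * (3 * d + 1) - 7)) < (f d n : ℝ) := by exact_mod_cast hf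
  have hd1 : (0 : ℝ) < (d : ℝ) + 1 := by positivity
  have he : (3 - 2 / ((d : ℝ) + 1)) * ((k + 1 : ℕ) * (d + 1 : ℕ) : ℕ) =
      (((k + 1) * (3 * d + 1) : ℕ) : ℝ) := by
    push_cast
    field_simp
    ring
  have h7 : 7 ≤ k * (3 * d + 1) := by nlinarith
  calc (n : ℝ) ^ (3 - 2 / ((d : ℝ) + 1))
      ≤ ((u : ℝ) ^ ((k + 1) * (d + 1))) ^ (3 - 2 / ((d : ℝ) + 1)) := by
        apply Real.rpow_le_rpow (by positivity)
        · exact_mod_cast hlt.le
        · have : 2 / ((d : ℝ) + 1) ≤ 2 := by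
            rw [div_le_iff₀ hd1]; nlinarith
          linarith
    _ = (u : ℝ) ^ ((k + 1) * (3 * d + 1)) := by
        rw [← Real.rpow_natCast, ← Real.rpow_mul hu0.le, mul_comm, he, Real.rpow_natCast]
    _ = (u : ℝ) ^ (3 * d + 8) * (u : ℝ) ^ (k * (3 * d + 1) - 7) := by
        rw [← pow_add]
        congr 1
        have : (k + 1) * (3 * d + 1) = k * (3 * d + 1) + (3 * d + 1) := by ring
        omega
    _ < (u : ℝ) ^ (3 * d + 8) * (f d n : ℝ) := by gcongr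

/-- **Lower bounds for `f_d(n)`.** (1) Let `d ≥ 2`, `n ≥ 3` and let `u` be an integer with
`2^(d+6) (d+5) (3 log n + 2) ≤ u` and `u^(4(d+1)) ≤ n`. Then `f_d(n) > n^(3 - 2/(d+1)) / u^(3d+8)`.
(2) Hence for every `d ≥ 2` and all large `n`,
`f_d(n) ≥ n^(3 - 2/(d+1)) / (6 * 2^(d+6) (d+5) log n)^(3d+8)`. -/
theorem result :
    (∀ d n u : ℕ, 2 ≤ d → 3 ≤ n → (2 : ℝ) ^ (d + 6) * (d + 5) * (3 * Real.log n + 2) ≤ u →
      u ^ (4 * (d + 1)) ≤ n →
      (n : ℝ) ^ (3 - 2 / ((d : ℝ) + 1)) < (u : ℝ) ^ (3 * d + 8) * (f d n : ℝ)) ∧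
    ∀ d : ℕ, 2 ≤ d → ∃ n₀ : ℕ, ∀ n : ℕ, n₀ ≤ n →
      (n : ℝ) ^ (3 - 2 / ((d : ℝ) + 1)) ≤
        (6 * (2 ^ (d + 6) * (d + 5)) * Real.log n) ^ (3 * d + 8) * (f d n : ℝ) := by
  refine ⟨fun d n u hd hn hu hun => key hd hn hu hun, ?_⟩
  intro d hd
  set C : ℝ := 2 ^ (d + 6) * (d + 5) with hC
  have hC1 : 1 ≤ C := by
    have h1 : (1 : ℝ) ≤ 2 ^ (d + 6) := one_le_pow₀ (by norm_num)
    have h2 : (1 : ℝ) ≤ (d : ℝ) + 5 := by linarith [show (0 : ℝ) ≤ d from Nat.cast_nonneg d]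
    nlinarith
  have hC0 : 0 < C := by linarith
  have hev : ∀ᶠ x : ℝ in atTop, (6 * C * Real.log x) ^ (4 * (d + 1)) ≤ x := by
    have h := (Real.isLittleO_pow_log_id_atTop (n := 4 * (d + 1))).def
      (c := 1 / (6 * C) ^ (4 * (d + 1))) (by positivity)
    filter_upwards [h, eventually_ge_atTop (1 : ℝ)] with x hx hx1
    rw [id, Real.norm_of_nonneg (pow_nonneg (Real.log_nonneg hx1) _),
      Real.norm_of_nonneg (by linarith)] at hx
    rw [mul_pow]
    calc (6 * C) ^ (4 * (d + 1)) * Real.log x ^ (4 * (d + 1))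
        ≤ (6 * C) ^ (4 * (d + 1)) * (1 / (6 * C) ^ (4 * (d + 1)) * x) := by gcongr
      _ = x := by field_simp
  obtain ⟨x0, hx0⟩ := eventually_atTop.1 hev
  obtain ⟨n1, hn1⟩ := exists_nat_gt x0
  refine ⟨max n1 3, fun n hn => ?_⟩
  have hn3 : 3 ≤ n := (le_max_right _ _).trans hn
  have hnx : x0 ≤ (n : ℝ) := by
    have : (n1 : ℝ) ≤ n := by exact_mod_cast (le_max_left _ _).trans hn
    linarith
  have hlog1 : (1 : ℝ) ≤ Real.log n := by
    rw [Real.le_log_iff_exp_le (by positivity)]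
    have h1 := Real.exp_one_lt_d9
    have h2 : (3 : ℝ) ≤ n := by exact_mod_cast hn3
    linarith
  set u : ℕ := ⌈C * (3 * Real.log n + 2)⌉₊ with hu
  have hu1 : C * (3 * Real.log n + 2) ≤ u := Nat.le_ceil _
  have hu2 : (u : ℝ) ≤ 6 * C * Real.log n := by
    have h1 : (u : ℝ) < C * (3 * Real.log n + 2) + 1 := Nat.ceil_lt_add_one (by positivity)
    nlinarith
  have hun : u ^ (4 * (d + 1)) ≤ n := by
    have h1 : ((u : ℝ)) ^ (4 * (d + 1)) ≤ n := by
      calc (u : ℝ) ^ (4 * (d + 1)) ≤ (6 * C * Real.log n) ^ (4 * (d + 1)) := by gcongr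
        _ ≤ n := hx0 n hnx
    exact_mod_cast h1
  have hmain := key hd hn3 hu1 hun
  refine hmain.le.trans ?_
  gcongr

end Pool.Agent.Results.MP_4ef84e_co.RowSparsePolylog
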